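import Mathlib

/-!
# A P4-set that is not a P2-set

In the cyclic group of order `10` the set `{1, 3, 4, 8}` is a P4-set but not a P2-set.
-/

namespace Pool.Agent.Results.MP_71efc4_nt.PFourNotPTwo

/-- `Σ A`: all subset sums of `A` (the empty sum included). -/
def subsetSums {G : Type} [AddCommGroup G] (A : Finset G) : Set G :=
  {x | ∃ S : Finset G, S ⊆ A ∧ ∑ a ∈ S, a = x}

/-- `Σ* A`: all sums over nonempty subsets of `A`. -/
def nonemptySubsetSums {G : Type} [AddCommGroup G] (A : Finset G) : Set G :=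
  {x | ∃ S : Finset G, S ⊆ A ∧ S.Nonempty ∧ ∑ a ∈ S, a = x}

/-- `c₀(G)`: the least `m` such that every set of at least `m` nonzero elements has `Σ A = G`. -/
noncomputable def cZero (G : Type) [AddCommGroup G] : ℕ :=
  sInf {m : ℕ | ∀ A : Finset G, (0 : G) ∉ A → m ≤ A.card → subsetSums A = Set.univ}

/-- `c(G)`: the least `m` such that every set of at least `m` nonzero elements has `Σ* A = G`. -/
noncomputable def cStar (G : Type) [AddCommGroup G] : ℕ :=
  sInf {m : ℕ | ∀ A : Finset G, (0 : G) ∉ A → m ≤ A.card → nonemptySubsetSums A = Set.univ}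

/-- P2-sets. -/
def IsP2 {G : Type} [AddCommGroup G] (A : Finset G) : Prop :=
  (0 : G) ∉ A ∧ A.card + 1 = cZero G ∧ subsetSums A ≠ Set.univ

/-- P4-sets. -/
def IsP4 {G : Type} [AddCommGroup G] (A : Finset G) : Prop :=
  (0 : G) ∉ A ∧ A.card + 1 = cStar G ∧ nonemptySubsetSums A ≠ Set.univ

theorem five_dec : ∀ A ∈ Finset.powersetCard 5 ((Finset.univ : Finset (ZMod 10)).erase 0),
    ∀ x : ZMod 10, ∃ S ∈ A.powerset, S.Nonempty ∧ ∑ a ∈ S, a = x := by
  decide +kernel

theorem five_mem (A : Finset (ZMod 10)) (h0 : (0 : ZMod 10) ∉ A) (h5 : 5 ≤ A.card) :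
    nonemptySubsetSums A = Set.univ := by
  obtain ⟨B, hBA, hB5⟩ := Finset.exists_subset_card_eq h5
  have hB : B ∈ Finset.powersetCard 5 ((Finset.univ : Finset (ZMod 10)).erase 0) := by
    rw [Finset.mem_powersetCard]
    refine ⟨fun b hb => ?_, hB5⟩
    rw [Finset.mem_erase]
    refine ⟨fun hb0 => h0 (hb0 ▸ hBA hb), Finset.mem_univ _⟩
  ext x
  simp only [nonemptySubsetSums, Set.mem_setOf_eq, Set.mem_univ, iff_true]
  obtain ⟨S, hS, hSn, hSx⟩ := five_dec B hB x
  exact ⟨S, (Finset.mem_powerset.1 hS).trans hBA, hSn, hSx⟩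

theorem not_zero_dec : ∀ S ∈ ({1, 3, 4, 8} : Finset (ZMod 10)).powerset,
    S.Nonempty → ∑ a ∈ S, a ≠ 0 := by
  decide +kernel

theorem all_dec : ∀ x : ZMod 10, ∃ S ∈ ({1, 3, 4, 8} : Finset (ZMod 10)).powerset,
    ∑ a ∈ S, a = x := by
  decide +kernel

theorem star_ne : nonemptySubsetSums ({1, 3, 4, 8} : Finset (ZMod 10)) ≠ Set.univ := by
  intro h
  have h0 : (0 : ZMod 10) ∈ nonemptySubsetSums ({1, 3, 4, 8} : Finset (ZMod 10)) := by
    rw [h]; trivial
  obtain ⟨S, hS, hSn, hS0⟩ := h0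
  exact not_zero_dec S (Finset.mem_powerset.2 hS) hSn hS0

theorem sums_eq : subsetSums ({1, 3, 4, 8} : Finset (ZMod 10)) = Set.univ := by
  ext x
  simp only [subsetSums, Set.mem_setOf_eq, Set.mem_univ, iff_true]
  obtain ⟨S, hS, hSx⟩ := all_dec x
  exact ⟨S, Finset.mem_powerset.1 hS, hSx⟩

theorem cStar_eq : cStar (ZMod 10) = 5 := by
  apply le_antisymm
  · exact Nat.sInf_le (fun A h0 h5 => five_mem A h0 h5)
  · apply le_csInf
    · exact ⟨5, fun A h0 h5 => five_mem A h0 h5⟩
    · intro m hm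
      by_contra hlt
      push Not at hlt
      have := hm ({1, 3, 4, 8} : Finset (ZMod 10)) (by decide) (by
        have : ({1, 3, 4, 8} : Finset (ZMod 10)).card = 4 := by decide
        omega)
      exact star_ne this

/-- There is a finite abelian group of order at least `10` with a P4-set that is not a P2-set;
so the statement that every P4-set is a P2-set in all finite abelian groups of order at least 10
is false. -/
theorem result : ¬ ∀ (G : Type) [AddCommGroup G] [Fintype G], 10 ≤ Fintype.card G →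
    ∀ A : Finset G, IsP4 A → IsP2 A := by
  intro h
  have hP2 := h (ZMod 10) (by simp [ZMod.card]) ({1, 3, 4, 8} : Finset (ZMod 10))
    ⟨by decide, by rw [cStar_eq]; decide, star_ne⟩
  exact hP2.2.2 sums_eq

end Pool.Agent.Results.MP_71efc4_nt.PFourNotPTwo
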